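import Pool.Agent.H.MP_ae2532_an.E

set_option autoImplicit false
open Set Pool.Agent.H.MP_ae2532_an
open scoped NNReal

namespace Pool.Agent.Results.MP_ae2532_an.No

theorem result : ∃ (Ω : Set (ℂ × ℂ)) (F G : ℂ × ℂ → ℂ × ℂ), IsOpen Ω ∧ Bornology.IsBounded Ω ∧
    BijOn F {q | ‖q.1‖ ^ 2 + ‖q.2‖ ^ 2 < 1} Ω ∧ InvOn G F {q | ‖q.1‖ ^ 2 + ‖q.2‖ ^ 2 < 1} Ω ∧
    DifferentiableOn ℂ F {q | ‖q.1‖ ^ 2 + ‖q.2‖ ^ 2 < 1} ∧ DifferentiableOn ℂ G Ω ∧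
    ¬ ∃ C : ℝ≥0, Est Ω C :=
  have ⟨a, b, c, d, e, f⟩ := dom Ha Hb
  ⟨_, _, _, a, b, c, d, e, f, fun ⟨C, h⟩ => noEst C h⟩

end Pool.Agent.Results.MP_ae2532_an.No
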